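import Pool.Agent.Helper6.HD.Defs

/-!
# IRR: the adjoint representation of the similitudes
-/

set_option autoImplicit false

open Matrix NumberField MU MT

namespace HD
namespace IRR19

variable {n : ℕ} (ψ : Matrix (Fin n) (Fin n) ℚ)

/-- the rank one endomorphism `x ↦ ψ(v, x) u` -/
def E (u v : Fin n → ℚ) : Matrix (Fin n) (Fin n) ℚ := vecMulVec u (v ᵥ* ψ)

/-- the bilinear form -/
def B (u v : Fin n → ℚ) : ℚ := (u ᵥ* ψ) ⬝ᵥ v

lemma mul_E (A : Matrix (Fin n) (Fin n) ℚ) (u v : Fin n → ℚ) : A * E ψ u v = E ψ (A *ᵥ u) v := by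
  unfold E; rw [mul_vecMulVec]

lemma E_mul (A : Matrix (Fin n) (Fin n) ℚ) (hA : A.transpose * ψ + ψ * A = 0) (u v : Fin n → ℚ) :
    E ψ u v * A = -E ψ u (A *ᵥ v) := by
  have h : ψ * A = -(A.transpose * ψ) := by rw [← add_eq_zero_iff_eq_neg', hA]
  unfold E
  rw [vecMulVec_mul, vecMul_vecMul, h, vecMul_neg, ← vecMul_vecMul, vecMul_transpose, vecMulVec_neg]

lemma E_mul_E (u v x y : Fin n → ℚ) : E ψ u v * E ψ x y = B ψ v x • E ψ u y := by
  unfold E B
  rw [vecMulVec_mul_vecMulVec, vecMulVec_smul]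

lemma E_add_left (u u' v : Fin n → ℚ) : E ψ (u + u') v = E ψ u v + E ψ u' v := by
  unfold E; rw [add_vecMulVec]
lemma E_add_right (u v v' : Fin n → ℚ) : E ψ u (v + v') = E ψ u v + E ψ u v' := by
  unfold E; rw [add_vecMul, vecMulVec_add]
lemma E_smul_left (c : ℚ) (u v : Fin n → ℚ) : E ψ (c • u) v = c • E ψ u v := by
  unfold E; rw [smul_vecMulVec]
lemma E_smul_right (c : ℚ) (u v : Fin n → ℚ) : E ψ u (c • v) = c • E ψ u v := by
  unfold E; rw [smul_vecMul, vecMulVec_smul]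
lemma E_neg_left (u v : Fin n → ℚ) : E ψ (-u) v = -E ψ u v := by
  unfold E; rw [neg_vecMulVec]
lemma E_neg_right (u v : Fin n → ℚ) : E ψ u (-v) = -E ψ u v := by
  unfold E; rw [neg_vecMul, vecMulVec_neg]
lemma E_sub_left (u u' v : Fin n → ℚ) : E ψ (u - u') v = E ψ u v - E ψ u' v := by
  rw [sub_eq_add_neg, E_add_left, E_neg_left, sub_eq_add_neg]
lemma E_sub_right (u v v' : Fin n → ℚ) : E ψ u (v - v') = E ψ u v - E ψ u v' := by
  rw [sub_eq_add_neg, E_add_right, E_neg_right, sub_eq_add_neg]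

lemma E_mulVec (u v x : Fin n → ℚ) : E ψ u v *ᵥ x = B ψ v x • u := by
  unfold E B
  rw [vecMulVec_mulVec]
  ext i; simp [mul_comm]

lemma B_add_left (u u' v : Fin n → ℚ) : B ψ (u + u') v = B ψ u v + B ψ u' v := by
  unfold B; rw [add_vecMul, add_dotProduct]
lemma B_add_right (u v v' : Fin n → ℚ) : B ψ u (v + v') = B ψ u v + B ψ u v' := by
  unfold B; rw [dotProduct_add]
lemma B_smul_left (c : ℚ) (u v : Fin n → ℚ) : B ψ (c • u) v = c * B ψ u v := by
  unfold B; rw [smul_vecMul, smul_dotProduct, smul_eq_mul]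
lemma B_smul_right (c : ℚ) (u v : Fin n → ℚ) : B ψ u (c • v) = c * B ψ u v := by
  unfold B; rw [dotProduct_smul, smul_eq_mul]
lemma B_neg_left (u v : Fin n → ℚ) : B ψ (-u) v = -B ψ u v := by
  unfold B; rw [neg_vecMul, neg_dotProduct]
lemma B_neg_right (u v : Fin n → ℚ) : B ψ u (-v) = -B ψ u v := by
  unfold B; rw [dotProduct_neg]
lemma B_sub_left (u u' v : Fin n → ℚ) : B ψ (u - u') v = B ψ u v - B ψ u' v := by
  rw [sub_eq_add_neg, B_add_left, B_neg_left, sub_eq_add_neg]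
lemma B_sub_right (u v v' : Fin n → ℚ) : B ψ u (v - v') = B ψ u v - B ψ u v' := by
  rw [sub_eq_add_neg, B_add_right, B_neg_right, sub_eq_add_neg]

lemma B_comm (ε : ℚ) (hψ : ψ.transpose = ε • ψ) (u v : Fin n → ℚ) : B ψ v u = ε * B ψ u v := by
  unfold B
  rw [← dotProduct_mulVec, ← vecMul_transpose, hψ, vecMul_smul, dotProduct_smul, dotProduct_comm,
    smul_eq_mul]

/-- the form is non-degenerate -/
lemma B_nondeg (hdet : ψ.det ≠ 0) (v : Fin n → ℚ) (hv : v ≠ 0) : ∃ x, B ψ v x ≠ 0 := by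
  by_contra h
  push Not at h
  refine hv (Matrix.eq_zero_of_vecMul_eq_zero hdet ?_)
  ext i
  have := h (Pi.single i 1)
  simpa [B] using this

lemma trans_E (ε : ℚ) (hψ : ψ.transpose = ε • ψ) (hε : ε * ε = 1) (u v : Fin n → ℚ) :
    (E ψ u v).transpose * ψ = ε • (ψ * E ψ v u) := by
  unfold E
  rw [transpose_vecMulVec, vecMulVec_mul, mul_vecMulVec, ← vecMul_transpose ψ v, hψ, vecMul_smul,
    smul_vecMulVec, smul_smul, hε, one_smul]

/-- multiplication by an infinitesimal isometry and the form -/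
lemma B_A (A : Matrix (Fin n) (Fin n) ℚ) (hA : A.transpose * ψ + ψ * A = 0) (u v : Fin n → ℚ) :
    B ψ u (A *ᵥ v) = -B ψ (A *ᵥ u) v := by
  have h : ψ * A = -(A.transpose * ψ) := by rw [← add_eq_zero_iff_eq_neg', hA]
  unfold B
  rw [dotProduct_mulVec, vecMul_vecMul, h, vecMul_neg, ← vecMul_vecMul, vecMul_transpose,
    neg_dotProduct]

variable (W : Submodule ℚ (Matrix (Fin n) (Fin n) ℚ))

/-- decomposition in rank one matrices -/
lemma decomp (hdet : ψ.det ≠ 0) (A : Matrix (Fin n) (Fin n) ℚ) :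
    A = ∑ i, ∑ j, (A * ψ⁻¹) i j • E ψ (Pi.single i 1) (Pi.single j 1) := by
  have hu : IsUnit ψ.det := isUnit_iff_ne_zero.mpr hdet
  have h1 : A = (A * ψ⁻¹) * ψ := by rw [Matrix.mul_assoc, Matrix.nonsing_inv_mul _ hu, Matrix.mul_one]
  have h2 : ∀ X : Matrix (Fin n) (Fin n) ℚ, X * ψ =
      ∑ i, ∑ j, X i j • E ψ (Pi.single i 1) (Pi.single j 1) := by
    intro X
    ext a b
    simp only [Matrix.mul_apply, Matrix.sum_apply, Matrix.smul_apply, E, vecMulVec_apply, smul_eq_mul]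
    have h3 : ∀ i : Fin n, ∑ j, X i j * ((Pi.single i 1 : Fin n → ℚ) a *
        ((Pi.single j 1 : Fin n → ℚ) ᵥ* ψ) b) = if a = i then ∑ j, X a j * ψ j b else 0 := by
      intro i
      split_ifs with h
      · subst h
        refine Finset.sum_congr rfl fun j _ => ?_
        simp
      · refine Finset.sum_eq_zero fun j _ => ?_
        simp [h]
    rw [Finset.sum_congr rfl fun i _ => h3 i, Finset.sum_ite_eq]
    simp
  rw [← h2]
  exact h1

/-- the stability of `W` under isometries -/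
def Stab : Prop := ∀ X Y : Matrix (Fin n) (Fin n) ℚ, X * Y = 1 → Y * X = 1 →
  X.transpose * ψ * X = ψ → ∀ A ∈ W, X * A * Y ∈ W

/-- infinitesimal isometries -/
def So (A : Matrix (Fin n) (Fin n) ℚ) : Prop := A.transpose * ψ + ψ * A = 0

lemma eq_zero_of_mulVec (A : Matrix (Fin n) (Fin n) ℚ) (h : ∀ v, A *ᵥ v = 0) : A = 0 := by
  ext i j
  have := congrFun (h (Pi.single j 1)) i
  simpa using this

/-! ### The alternating case -/

section symp

variable (hψ : ψ.transpose = (-1 : ℚ) • ψ) (hdet : ψ.det ≠ 0) (hW : Stab ψ W)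

include hψ in
lemma B_self (v : Fin n → ℚ) : B ψ v v = 0 := by
  have := B_comm ψ (-1) hψ v v
  linarith

include hψ in
lemma so_E (v : Fin n → ℚ) : So ψ (E ψ v v) := by
  unfold So
  rw [trans_E ψ (-1) hψ (by norm_num), neg_one_smul, neg_add_cancel]

include hψ hW in
lemma key (A : Matrix (Fin n) (Fin n) ℚ) (hA : A ∈ W) (v : Fin n → ℚ) :
    B ψ v (A *ᵥ v) • E ψ v v ∈ W := by
  set P := E ψ v v with hP
  have hPP : P * P = 0 := by rw [hP, E_mul_E, B_self ψ hψ, zero_smul]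
  have hPA : P * A * P = B ψ v (A *ᵥ v) • P := by
    rw [Matrix.mul_assoc, hP, mul_E, E_mul_E]
  have hso : P.transpose * ψ = -(ψ * P) := by
    have := so_E ψ hψ v
    unfold So at this
    exact eq_neg_of_add_eq_zero_left this
  have h1 : (1 + P) * (1 - P) = 1 := by
    rw [Matrix.add_mul, Matrix.mul_sub, Matrix.mul_sub, hPP]; simp
  have h2 : (1 - P) * (1 + P) = 1 := by
    rw [Matrix.sub_mul, Matrix.mul_add, Matrix.mul_add, hPP]; simp
  have h3 : (1 + P).transpose * ψ * (1 + P) = ψ := by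
    rw [transpose_add, transpose_one, Matrix.add_mul, Matrix.one_mul, hso]
    rw [Matrix.mul_add, Matrix.mul_one, Matrix.add_mul, Matrix.neg_mul, Matrix.mul_assoc ψ P P, hPP]
    simp
  have h4 : (1 - P).transpose * ψ * (1 - P) = ψ := by
    rw [transpose_sub, transpose_one, Matrix.sub_mul, Matrix.one_mul, hso]
    rw [Matrix.mul_sub, Matrix.mul_one, Matrix.sub_mul, Matrix.neg_mul, Matrix.mul_assoc ψ P P, hPP]
    simp
  have m1 := hW _ _ h1 h2 h3 A hA
  have m2 := hW _ _ h2 h1 h4 A hA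
  have m3 : A - (1 / 2 : ℚ) • ((1 + P) * A * (1 - P) + (1 - P) * A * (1 + P)) ∈ W :=
    W.sub_mem hA (W.smul_mem _ (W.add_mem m1 m2))
  rw [← hPA]
  have h5 : (1 + P) * A * (1 - P) + (1 - P) * A * (1 + P) = (2 : ℚ) • A - (2 : ℚ) • (P * A * P) := by
    simp only [Matrix.add_mul, Matrix.sub_mul, Matrix.mul_add, Matrix.mul_sub, Matrix.one_mul,
      Matrix.mul_one, two_smul]
    abel
  rw [h5, smul_sub, smul_smul, smul_smul] at m3
  simpa using m3

include hψ hW hdet in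
lemma symp_all (A : Matrix (Fin n) (Fin n) ℚ) (hA : A ∈ W) (hAs : So ψ A) (hne : A ≠ 0)
    (u : Fin n → ℚ) : E ψ u u ∈ W := by
  have hanti : ∀ x y, B ψ x y = -B ψ y x := fun x y => by
    rw [B_comm ψ (-1) hψ y x]; ring
  -- a first transvection
  obtain ⟨v, hv⟩ : ∃ v, B ψ v (A *ᵥ v) ≠ 0 := by
    by_contra h
    push Not at h
    refine hne (eq_zero_of_mulVec A fun v => ?_)
    by_contra hAv
    obtain ⟨x, hx⟩ := B_nondeg ψ hdet _ hAv
    have h1 := h (v + x)
    have h2 := h v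
    have h3 := h x
    rw [mulVec_add, B_add_left, B_add_right, B_add_right, h2, h3] at h1
    have h4 := B_A ψ A hAs v x
    have h5 := hanti (A *ᵥ v) x
    apply hx
    linarith
  have hmem : ∀ v : Fin n → ℚ, ∀ c : ℚ, c ≠ 0 → c • E ψ v v ∈ W → E ψ v v ∈ W := by
    intro v c hc h
    have := W.smul_mem c⁻¹ h
    rwa [smul_smul, inv_mul_cancel₀ hc, one_smul] at this
  have hv1 : E ψ v v ∈ W := hmem v _ hv (key ψ W hψ hW A hA v)
  have hv0 : v ≠ 0 := by
    rintro rfl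
    apply hv
    simp [B]
  have hstep : ∀ v u : Fin n → ℚ, E ψ v v ∈ W → B ψ v u ≠ 0 → E ψ u u ∈ W := by
    intro v u h1 h2
    have h3 := key ψ W hψ hW _ h1 u
    rw [E_mulVec, B_smul_right] at h3
    refine hmem u _ ?_ h3
    rw [hanti u v]
    have := mul_ne_zero h2 h2
    intro h4
    apply this
    linarith
  by_cases hu : u = 0
  · subst hu
    have : E ψ (0 : Fin n → ℚ) 0 = 0 := by
      unfold E; simp
    rw [this]
    exact W.zero_mem
  obtain ⟨x, hx⟩ := B_nondeg ψ hdet v hv0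
  obtain ⟨y, hy⟩ := B_nondeg ψ hdet u hu
  have hy' : B ψ y u ≠ 0 := by rw [hanti]; exact neg_ne_zero.mpr hy
  obtain ⟨w, hw1, hw2⟩ : ∃ w, B ψ v w ≠ 0 ∧ B ψ w u ≠ 0 := by
    by_cases h1 : B ψ x u = 0
    · by_cases h2 : B ψ v y = 0
      · refine ⟨x + y, ?_, ?_⟩
        · rw [B_add_right, h2, add_zero]; exact hx
        · rw [B_add_left, h1, zero_add]; exact hy'
      · exact ⟨y, h2, hy'⟩
    · exact ⟨x, hx, h1⟩
  exact hstep w u (hstep v w hv1 hw1) hw2

include hψ hW hdet in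
lemma symp_final (A : Matrix (Fin n) (Fin n) ℚ) (hA : A ∈ W) (hAs : So ψ A) (hne : A ≠ 0)
    (C : Matrix (Fin n) (Fin n) ℚ) (hC : So ψ C) : C ∈ W := by
  have hall := symp_all ψ W hψ hdet hW A hA hAs hne
  have hsum : ∀ u v, E ψ u v + E ψ v u ∈ W := by
    intro u v
    have h1 := W.sub_mem (W.sub_mem (hall (u + v)) (hall u)) (hall v)
    rw [E_add_left, E_add_right, E_add_right] at h1
    convert h1 using 1
    abel
  have hu : IsUnit ψ.det := isUnit_iff_ne_zero.mpr hdet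
  set X := C * ψ⁻¹ with hX
  have hsymm : X.transpose = X := by
    have h1 : C.transpose = -(ψ * C * ψ⁻¹) := by
      have h2 : C.transpose * ψ = -(ψ * C) := eq_neg_of_add_eq_zero_left hC
      have h3 := congrArg (· * ψ⁻¹) h2
      simp only [Matrix.mul_assoc] at h3
      rw [Matrix.mul_nonsing_inv _ hu, Matrix.mul_one] at h3
      rw [h3, Matrix.neg_mul]
    have h4 : (ψ⁻¹).transpose = -ψ⁻¹ := by
      rw [transpose_nonsing_inv, hψ, neg_one_smul]
      refine Matrix.inv_eq_left_inv ?_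
      rw [Matrix.neg_mul, Matrix.mul_neg, neg_neg, Matrix.nonsing_inv_mul _ hu]
    rw [hX, transpose_mul, h4, h1, Matrix.neg_mul, Matrix.mul_neg, neg_neg, Matrix.mul_assoc,
      ← Matrix.mul_assoc, Matrix.nonsing_inv_mul _ hu, Matrix.one_mul]
  have hd := decomp ψ hdet C
  rw [← hX] at hd
  have hd2 : C = ∑ i, ∑ j, X i j • E ψ (Pi.single j 1) (Pi.single i 1) := by
    rw [hd, Finset.sum_comm]
    refine Finset.sum_congr rfl fun i _ => Finset.sum_congr rfl fun j _ => ?_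
    have : X j i = X i j := by
      conv_lhs => rw [← hsymm]
      rfl
    rw [this]
  have h3 : C = (1 / 2 : ℚ) • ∑ i, ∑ j, X i j • (E ψ (Pi.single i 1) (Pi.single j 1) +
      E ψ (Pi.single j 1) (Pi.single i 1)) := by
    simp only [smul_add, Finset.sum_add_distrib]
    rw [← hd, ← hd2, ← add_smul]
    norm_num
  rw [h3]
  exact W.smul_mem _ (W.sum_mem fun i _ => W.sum_mem fun j _ => W.smul_mem _ (hsum _ _))

end symp

/-! ### The symmetric case -/

/-- the infinitesimal rotations -/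
def G (u v : Fin n → ℚ) : Matrix (Fin n) (Fin n) ℚ := E ψ u v - E ψ v u

lemma G_add_left (u u' v : Fin n → ℚ) : G ψ (u + u') v = G ψ u v + G ψ u' v := by
  unfold G; rw [E_add_left, E_add_right]; abel
lemma G_add_right (u v v' : Fin n → ℚ) : G ψ u (v + v') = G ψ u v + G ψ u v' := by
  unfold G; rw [E_add_left, E_add_right]; abel
lemma G_smul_left (c : ℚ) (u v : Fin n → ℚ) : G ψ (c • u) v = c • G ψ u v := by
  unfold G; rw [E_smul_left, E_smul_right, smul_sub]
lemma G_smul_right (c : ℚ) (u v : Fin n → ℚ) : G ψ u (c • v) = c • G ψ u v := by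
  unfold G; rw [E_smul_left, E_smul_right, smul_sub]
lemma G_sub_left (u u' v : Fin n → ℚ) : G ψ (u - u') v = G ψ u v - G ψ u' v := by
  unfold G; rw [E_sub_left, E_sub_right]; abel
lemma G_sub_right (u v v' : Fin n → ℚ) : G ψ u (v - v') = G ψ u v - G ψ u v' := by
  unfold G; rw [E_sub_left, E_sub_right]; abel
lemma G_self (u : Fin n → ℚ) : G ψ u u = 0 := by
  unfold G; rw [sub_self]
lemma G_mulVec (u v x : Fin n → ℚ) : G ψ u v *ᵥ x = B ψ v x • u - B ψ u x • v := by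
  unfold G; rw [sub_mulVec, E_mulVec, E_mulVec]

section orth

variable (hψ : ψ.transpose = (1 : ℚ) • ψ) (hdet : ψ.det ≠ 0) (hW : Stab ψ W)

include hψ in
lemma B_symm (u v : Fin n → ℚ) : B ψ u v = B ψ v u := by
  have := B_comm ψ 1 hψ v u
  linarith

include hψ in
lemma so_G (u v : Fin n → ℚ) : So ψ (G ψ u v) := by
  unfold So G
  rw [transpose_sub, Matrix.sub_mul, trans_E ψ 1 hψ (by norm_num), trans_E ψ 1 hψ (by norm_num),
    one_smul, one_smul, Matrix.mul_sub]
  abel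

include hψ in
lemma B_A_self (A : Matrix (Fin n) (Fin n) ℚ) (hA : So ψ A) (v : Fin n → ℚ) :
    B ψ v (A *ᵥ v) = 0 := by
  have h1 := B_A ψ A hA v v
  have h2 := B_symm ψ hψ v (A *ᵥ v)
  linarith

include hψ hW in
lemma refl_mem (A : Matrix (Fin n) (Fin n) ℚ) (hA : A ∈ W) (hAs : So ψ A) (v : Fin n → ℚ)
    (hv : B ψ v v ≠ 0) : G ψ (A *ᵥ v) v ∈ W := by
  set q := B ψ v v with hq
  set P := E ψ v v with hP
  have hPP : P * P = q • P := by rw [hP, E_mul_E]
  have hPA : P * A = -E ψ v (A *ᵥ v) := E_mul ψ A hAs v v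
  have hAP : A * P = E ψ (A *ᵥ v) v := mul_E ψ A v v
  have hPAP : P * A * P = 0 := by
    rw [hPA, hP, Matrix.neg_mul, E_mul_E, B_symm ψ hψ, B_A_self ψ hψ A hAs, zero_smul, neg_zero]
  have hPs : P.transpose * ψ = ψ * P := by
    rw [hP, trans_E ψ 1 hψ (by norm_num), one_smul]
  have h1 : (1 - (2 / q) • P) * (1 - (2 / q) • P) = 1 := by
    rw [Matrix.sub_mul, Matrix.one_mul, Matrix.mul_sub, Matrix.mul_one, Matrix.smul_mul,
      Matrix.mul_smul, hPP, smul_smul, smul_smul]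
    have : 2 / q * (2 / q) * q = 2 / q + 2 / q := by field_simp; ring
    rw [this, add_smul]
    abel
  have h2 : (1 - (2 / q) • P).transpose * ψ * (1 - (2 / q) • P) = ψ := by
    have : (1 - (2 / q) • P).transpose * ψ = ψ * (1 - (2 / q) • P) := by
      rw [transpose_sub, transpose_one, transpose_smul, Matrix.sub_mul, Matrix.one_mul, Matrix.smul_mul,
        hPs, Matrix.mul_sub, Matrix.mul_one, Matrix.mul_smul]
    rw [this, Matrix.mul_assoc, h1, Matrix.mul_one]
  have m1 := hW _ _ h1 h1 h2 A hA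
  have h3 : (1 - (2 / q) • P) * A * (1 - (2 / q) • P) = A - (2 / q) • (A * P + P * A) := by
    rw [Matrix.sub_mul, Matrix.one_mul, Matrix.sub_mul, Matrix.mul_sub, Matrix.mul_sub, Matrix.mul_one,
      Matrix.mul_one, Matrix.smul_mul, Matrix.smul_mul, Matrix.mul_smul, Matrix.mul_smul, hPAP]
    simp only [smul_zero, sub_zero, smul_add]
    abel
  rw [h3] at m1
  have m2 := W.smul_mem (q / 2) (W.sub_mem hA m1)
  have h4 : (q / 2) • (A - (A - (2 / q) • (A * P + P * A))) = G ψ (A *ᵥ v) v := by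
    rw [sub_sub_cancel, smul_smul, hPA, hAP]
    have : q / 2 * (2 / q) = 1 := by field_simp
    rw [this, one_smul]
    unfold G
    abel
  rwa [h4] at m2

/-- two anisotropic vectors -/
lemma two_aniso (e v : Fin n → ℚ) (hs : ∀ u v, B ψ u v = B ψ v u) (he : B ψ e e ≠ 0)
    (hv : B ψ v v = 0) : ∃ t : ℚ, t ≠ 0 ∧ B ψ (v + t • e) (v + t • e) ≠ 0 ∧
      B ψ (v - t • e) (v - t • e) ≠ 0 := by
  refine ⟨(2 * |B ψ v e| + 1) / B ψ e e, ?_, ?_, ?_⟩
  · have : 0 ≤ |B ψ v e| := abs_nonneg _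
    exact div_ne_zero (by positivity) he
  · rw [B_add_left, B_add_right, B_add_right, B_smul_left, B_smul_left, B_smul_right, B_smul_right,
      hv, hs e v]
    have h1 : 0 ≤ |B ψ v e| := abs_nonneg _
    have h2 := neg_abs_le (B ψ v e)
    have h3 : (2 * |B ψ v e| + 1) / B ψ e e * ((2 * |B ψ v e| + 1) / B ψ e e * B ψ e e) =
      (2 * |B ψ v e| + 1) / B ψ e e * (2 * |B ψ v e| + 1) := by field_simp
    rw [h3]
    have h4 : (0 + (2 * |B ψ v e| + 1) / B ψ e e * B ψ v e + ((2 * |B ψ v e| + 1) / B ψ e e * B ψ v e +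
        (2 * |B ψ v e| + 1) / B ψ e e * (2 * |B ψ v e| + 1))) =
      (2 * |B ψ v e| + 1) / B ψ e e * (2 * B ψ v e + 2 * |B ψ v e| + 1) := by ring
    rw [h4]
    refine mul_ne_zero (div_ne_zero (by positivity) he) ?_
    have : 0 < 2 * B ψ v e + 2 * |B ψ v e| + 1 := by linarith
    exact this.ne'
  · rw [B_sub_left, B_sub_right, B_sub_right, B_smul_left, B_smul_left, B_smul_right, B_smul_right,
      hv, hs e v]
    have h1 : 0 ≤ |B ψ v e| := abs_nonneg _
    have h2 := le_abs_self (B ψ v e)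
    have h3 : (2 * |B ψ v e| + 1) / B ψ e e * ((2 * |B ψ v e| + 1) / B ψ e e * B ψ e e) =
      (2 * |B ψ v e| + 1) / B ψ e e * (2 * |B ψ v e| + 1) := by field_simp
    rw [h3]
    have h4 : (0 - (2 * |B ψ v e| + 1) / B ψ e e * B ψ v e - ((2 * |B ψ v e| + 1) / B ψ e e * B ψ v e -
        (2 * |B ψ v e| + 1) / B ψ e e * (2 * |B ψ v e| + 1))) =
      (2 * |B ψ v e| + 1) / B ψ e e * (-2 * B ψ v e + 2 * |B ψ v e| + 1) := by ring
    rw [h4]
    refine mul_ne_zero (div_ne_zero (by positivity) he) ?_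
    have : 0 < -2 * B ψ v e + 2 * |B ψ v e| + 1 := by linarith
    exact this.ne'

include hψ hdet in
/-- an anisotropic vector -/
lemma exists_aniso (x : Fin n → ℚ) (hx : x ≠ 0) : ∃ e, B ψ e e ≠ 0 := by
  by_contra h
  push Not at h
  obtain ⟨y, hy⟩ := B_nondeg ψ hdet x hx
  have h1 := h (x + y)
  rw [B_add_left, B_add_right, B_add_right, h x, h y, B_symm ψ hψ y x] at h1
  apply hy
  linarith

include hψ hdet hW in
lemma quad_mem (A : Matrix (Fin n) (Fin n) ℚ) (hA : A ∈ W) (hAs : So ψ A) (v : Fin n → ℚ) :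
    G ψ (A *ᵥ v) v ∈ W := by
  by_cases hv : B ψ v v = 0
  swap
  · exact refl_mem ψ W hψ hW A hA hAs v hv
  by_cases hv0 : v = 0
  · subst hv0
    have : G ψ (A *ᵥ (0 : Fin n → ℚ)) 0 = 0 := by rw [mulVec_zero, G_self]
    rw [this]; exact W.zero_mem
  obtain ⟨e, he⟩ := exists_aniso ψ hψ hdet v hv0
  obtain ⟨t, ht, h1, h2⟩ := two_aniso ψ e v (B_symm ψ hψ) he hv
  have m1 := refl_mem ψ W hψ hW A hA hAs _ h1
  have m2 := refl_mem ψ W hψ hW A hA hAs _ h2
  have m3 := refl_mem ψ W hψ hW A hA hAs e he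
  have m4 := W.smul_mem (1 / 2 : ℚ) (W.sub_mem (W.add_mem m1 m2) (W.smul_mem (2 * t ^ 2) m3))
  convert m4 using 1
  rw [mulVec_add, mulVec_sub, mulVec_smul, G_add_left, G_add_right, G_add_right, G_sub_left,
    G_sub_right, G_sub_right, G_smul_left, G_smul_left, G_smul_right, G_smul_right, smul_smul]
  module

include hψ hdet hW in
lemma polar_mem (A : Matrix (Fin n) (Fin n) ℚ) (hA : A ∈ W) (hAs : So ψ A) (x y : Fin n → ℚ) :
    G ψ (A *ᵥ x) y + G ψ (A *ᵥ y) x ∈ W := by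
  have m1 := quad_mem ψ W hψ hdet hW A hA hAs (x + y)
  have m2 := quad_mem ψ W hψ hdet hW A hA hAs x
  have m3 := quad_mem ψ W hψ hdet hW A hA hAs y
  have m4 := W.sub_mem (W.sub_mem m1 m2) m3
  convert m4 using 1
  rw [mulVec_add, G_add_left, G_add_right, G_add_right]
  abel

include hψ hdet hW in
lemma orth_all (A : Matrix (Fin n) (Fin n) ℚ) (hA : A ∈ W) (hAs : So ψ A) (hne : A ≠ 0)
    (v y : Fin n → ℚ) : G ψ v y ∈ W := by
  -- an anisotropic vector `e` with `A e ≠ 0`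
  obtain ⟨e, he, hAe⟩ : ∃ e, B ψ e e ≠ 0 ∧ A *ᵥ e ≠ 0 := by
    by_contra h
    push Not at h
    refine hne (eq_zero_of_mulVec A fun x => ?_)
    by_cases hx : B ψ x x = 0
    swap
    · exact h x hx
    by_cases hx0 : x = 0
    · rw [hx0, mulVec_zero]
    obtain ⟨e, he⟩ := exists_aniso ψ hψ hdet x hx0
    obtain ⟨t, ht, h1, h2⟩ := two_aniso ψ e x (B_symm ψ hψ) he hx
    have h3 := h _ h1
    have h4 := h _ h2
    rw [mulVec_add] at h3
    rw [mulVec_sub] at h4
    have h5 : (2 : ℚ) • (A *ᵥ x) = 0 := by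
      rw [two_smul]
      calc A *ᵥ x + A *ᵥ x = (A *ᵥ x + A *ᵥ (t • e)) + (A *ᵥ x - A *ᵥ (t • e)) := by abel
        _ = 0 := by rw [h3, h4, add_zero]
    exact (smul_eq_zero.mp h5).resolve_left (by norm_num)
  set u := A *ᵥ e with hu
  have m1 : G ψ u e ∈ W := refl_mem ψ W hψ hW A hA hAs e he
  have hue : B ψ u e = 0 := by rw [B_symm ψ hψ, hu, B_A_self ψ hψ A hAs]
  have m2 : ∀ x, G ψ u x ∈ W := by
    intro x
    have m := polar_mem ψ W hψ hdet hW _ m1 (so_G ψ hψ u e) x e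
    rw [G_mulVec, G_mulVec, hue, zero_smul, sub_zero, G_sub_left, G_smul_left, G_smul_left, G_self,
      smul_zero, sub_zero, G_smul_left] at m
    have m' := W.sub_mem m (W.smul_mem (B ψ e x) m1)
    rw [add_sub_cancel_left] at m'
    have m'' := W.smul_mem (B ψ e e)⁻¹ m'
    rwa [smul_smul, inv_mul_cancel₀ he, one_smul] at m''
  have m3 : ∀ v x, B ψ u x ≠ 0 → G ψ v x ∈ W := by
    intro v x hx
    have m := quad_mem ψ W hψ hdet hW _ (m2 v) (so_G ψ hψ u v) x
    rw [G_mulVec, G_sub_left, G_smul_left, G_smul_left] at m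
    have m' := W.sub_mem (W.smul_mem (B ψ v x) (m2 x)) m
    rw [sub_sub_cancel] at m'
    have m'' := W.smul_mem (B ψ u x)⁻¹ m'
    rwa [smul_smul, inv_mul_cancel₀ hx, one_smul] at m''
  obtain ⟨x0, hx0⟩ := B_nondeg ψ hdet u hAe
  by_cases hy : B ψ u y = 0
  · have h1 : B ψ u (y + x0) ≠ 0 := by rw [B_add_right, hy, zero_add]; exact hx0
    have m := W.sub_mem (m3 v _ h1) (m3 v _ hx0)
    rwa [G_add_right, add_sub_cancel_right] at m
  · exact m3 v y hy

include hψ hW hdet in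
lemma orth_final (A : Matrix (Fin n) (Fin n) ℚ) (hA : A ∈ W) (hAs : So ψ A) (hne : A ≠ 0)
    (C : Matrix (Fin n) (Fin n) ℚ) (hC : So ψ C) : C ∈ W := by
  have hall := orth_all ψ W hψ hdet hW A hA hAs hne
  have hu : IsUnit ψ.det := isUnit_iff_ne_zero.mpr hdet
  set X := C * ψ⁻¹ with hX
  have hsymm : X.transpose = -X := by
    have h1 : C.transpose = -(ψ * C * ψ⁻¹) := by
      have h2 : C.transpose * ψ = -(ψ * C) := eq_neg_of_add_eq_zero_left hC
      have h3 := congrArg (· * ψ⁻¹) h2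
      simp only [Matrix.mul_assoc] at h3
      rw [Matrix.mul_nonsing_inv _ hu, Matrix.mul_one] at h3
      rw [h3, Matrix.neg_mul]
    have h4 : (ψ⁻¹).transpose = ψ⁻¹ := by
      rw [transpose_nonsing_inv, hψ, one_smul]
    rw [hX, transpose_mul, h4, h1, Matrix.mul_neg, Matrix.mul_assoc,
      ← Matrix.mul_assoc ψ⁻¹, Matrix.nonsing_inv_mul _ hu, Matrix.one_mul]
  have hd := decomp ψ hdet C
  rw [← hX] at hd
  have hd2 : C = -∑ i, ∑ j, X i j • E ψ (Pi.single j 1) (Pi.single i 1) := by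
    rw [hd, Finset.sum_comm, ← Finset.sum_neg_distrib]
    refine Finset.sum_congr rfl fun i _ => ?_
    rw [← Finset.sum_neg_distrib]
    refine Finset.sum_congr rfl fun j _ => ?_
    have : X j i = -X i j := by
      have := congrFun (congrFun hsymm i) j
      simpa using this
    rw [this, neg_smul]
  have h3 : C = (1 / 2 : ℚ) • ∑ i, ∑ j, X i j • G ψ (Pi.single i 1) (Pi.single j 1) := by
    unfold G
    simp only [smul_sub, Finset.sum_sub_distrib]
    rw [sub_eq_add_neg, ← smul_neg, ← hd2, ← hd, ← add_smul]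
    norm_num
  rw [h3]
  exact W.smul_mem _ (W.sum_mem fun i _ => W.sum_mem fun j _ => W.smul_mem _ (hall _ _))

end orth

end IRR19

open IRR19

theorem st_IRR : ST_IRR := by
  intro n ψ W hdet hψ hconj h1 hW hex C hC
  have hbas : bas ℚ ψ = ψ := by
    ext i j; simp [bas]
  have hStab : Stab ψ W := by
    intro X Y hXY hYX hX A hA
    have := hconj ⟨X, Y, hXY, hYX⟩ ?_ A hA
    · exact this
    · refine ⟨1, ?_⟩
      rw [hbas, one_smul]
      exact hX
  obtain ⟨A, hA, hne⟩ := hex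
  obtain ⟨c, hc⟩ := hW A hA
  have hA0 : A - (c / 2) • (1 : Matrix (Fin n) (Fin n) ℚ) ∈ W := W.sub_mem hA (W.smul_mem _ h1)
  have hA0' : A - (c / 2) • (1 : Matrix (Fin n) (Fin n) ℚ) ≠ 0 := fun h =>
    hne (c / 2) (sub_eq_zero.mp h)
  have hA0s : So ψ (A - (c / 2) • (1 : Matrix (Fin n) (Fin n) ℚ)) := by
    unfold So
    rw [transpose_sub, transpose_smul, transpose_one, Matrix.sub_mul, Matrix.mul_sub, Matrix.smul_mul,
      Matrix.mul_smul, Matrix.one_mul, Matrix.mul_one]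
    have : A.transpose * ψ - (c / 2) • ψ + (ψ * A - (c / 2) • ψ) =
        (A.transpose * ψ + ψ * A) - c • ψ := by module
    rw [this, hc, sub_self]
  rcases hψ with hψ | hψ
  · exact symp_final ψ W (by rw [hψ, neg_one_smul]) hdet hStab _ hA0 hA0s hA0' C hC
  · exact orth_final ψ W (by rw [hψ, one_smul]) hdet hStab _ hA0 hA0s hA0' C hC

end HD
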